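import Pool.Agent.KS6_63.GJ.M1
import Pool.Agent.KS6_63.GJ.L.PartB

/-!
Mollifications of a function which is close to `a` and `b` on the two sides of a hyperplane.
-/

set_option autoImplicit false

open MeasureTheory Filter Set Metric Topology
open scoped ENNReal NNReal InnerProductSpace

namespace R257.BJ

variable {n d : ℕ}

lemma moll_sub_le {u : E n → F d} (hu : StronglyMeasurable u) {η : E n → ℝ} (hη : Measurable η)
    (hηi : Integrable η volume) (ε : ℝ) (a : F d) (y : E n) :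
    ‖moll η ε u y - (∫ z, η z) • a‖ₑ ≤ ∫⁻ z, ‖η z‖ₑ * ‖u (y - ε • z) - a‖ₑ := by
  have hm : StronglyMeasurable (fun z : E n => η z • u (y - ε • z)) := by
    have h1 : StronglyMeasurable (fun z : E n => u (y - ε • z)) :=
      hu.comp_measurable (measurable_const.sub (measurable_id.const_smul ε))
    exact hη.stronglyMeasurable.smul h1
  have hia : Integrable (fun z : E n => η z • a) volume := hηi.smul_const a
  have hc : ∫ z, η z • a = (∫ z, η z) • a := integral_smul_const _ _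
  have he : ∀ z, ‖η z • u (y - ε • z) - η z • a‖ₑ = ‖η z‖ₑ * ‖u (y - ε • z) - a‖ₑ := by
    intro z
    rw [← smul_sub, enorm_smul]
  by_cases hi : Integrable (fun z : E n => η z • u (y - ε • z)) volume
  · unfold moll
    rw [← hc, ← integral_sub hi hia]
    refine (enorm_integral_le_lintegral_enorm _).trans (le_of_eq ?_)
    exact lintegral_congr he
  · have hinf : ∫⁻ z, ‖η z‖ₑ * ‖u (y - ε • z) - a‖ₑ = ⊤ := by
      by_contra hne
      apply hi
      have h2 : Integrable (fun z : E n => η z • u (y - ε • z) - η z • a) volume := by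
        refine ⟨(hm.aestronglyMeasurable).sub hia.1, ?_⟩
        rw [hasFiniteIntegral_iff_enorm]
        have : ∫⁻ z, ‖η z • u (y - ε • z) - η z • a‖ₑ = ∫⁻ z, ‖η z‖ₑ * ‖u (y - ε • z) - a‖ₑ :=
          lintegral_congr he
        rw [this]
        exact lt_top_iff_ne_top.2 hne
      have h3 := h2.add hia
      refine h3.congr (Eventually.of_forall fun z => ?_)
      simp
    rw [hinf]
    exact le_top

lemma moll_int_le {u : E n → F d} (hu : StronglyMeasurable u) {η : E n → ℝ} (hη : Measurable η)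
    (hηi : Integrable η volume) (ε : ℝ) (a : F d) (A : Set (E n)) :
    ∫⁻ y in A, ‖moll η ε u y - (∫ z, η z) • a‖ₑ ≤
      ∫⁻ z, ‖η z‖ₑ * ∫⁻ y in A, ‖u (y - ε • z) - a‖ₑ := by
  have hjm : Measurable (fun p : E n × E n => ‖η p.2‖ₑ * ‖u (p.1 - ε • p.2) - a‖ₑ) := by
    have h1 : Measurable (fun p : E n × E n => u (p.1 - ε • p.2)) :=
      hu.measurable.comp (measurable_fst.sub (measurable_snd.const_smul ε))
    exact (hη.comp measurable_snd).enorm.mul (h1.sub measurable_const).enorm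
  calc ∫⁻ y in A, ‖moll η ε u y - (∫ z, η z) • a‖ₑ
      ≤ ∫⁻ y in A, ∫⁻ z, ‖η z‖ₑ * ‖u (y - ε • z) - a‖ₑ :=
        lintegral_mono fun y => moll_sub_le hu hη hηi ε a y
    _ = ∫⁻ z, ∫⁻ y in A, ‖η z‖ₑ * ‖u (y - ε • z) - a‖ₑ := by
        rw [lintegral_lintegral_swap hjm.aemeasurable]
    _ = _ := by
        apply lintegral_congr
        intro z
        rw [lintegral_const_mul']
        exact enorm_ne_top

lemma hyper_null {ν : E n} {P : E n →ₗ[ℝ] EuclideanSpace ℝ (Fin n)}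
    (hP2 : MeasurePreserving (fun x : E n => (⟪ν, x⟫_ℝ, P x)) volume
      ((volume : Measure ℝ).prod (volume : Measure (EuclideanSpace ℝ (Fin n))))) (p : E n) :
    volume {y : E n | ⟪ν, y - p⟫_ℝ = 0} = 0 := by
  have h : {y : E n | ⟪ν, y - p⟫_ℝ = 0} = (fun x : E n => (⟪ν, x⟫_ℝ, P x)) ⁻¹'
      ({⟪ν, p⟫_ℝ} ×ˢ univ) := by
    ext y
    simp only [mem_ofPred_eq, mem_preimage, mem_prod, mem_singleton_iff, mem_univ, and_true,
      inner_sub_right, sub_eq_zero]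
  rw [h, hP2.measure_preimage
    ((measurableSet_singleton _).prod MeasurableSet.univ).nullMeasurableSet,
    Measure.prod_prod, Real.volume_singleton, zero_mul]

/-- one shift -/
lemma shift_le {u : E n → F d} (hu : StronglyMeasurable u) {a b : F d}
    {ν : E n} (hν : ‖ν‖ = 1) {P : E n →ₗ[ℝ] EuclideanSpace ℝ (Fin n)}
    (hP1 : ∀ x : E n, ‖x‖ ^ 2 = ⟪ν, x⟫_ℝ ^ 2 + ‖P x‖ ^ 2)
    (hP2 : MeasurePreserving (fun x : E n => (⟪ν, x⟫_ℝ, P x)) volume
      ((volume : Measure ℝ).prod (volume : Measure (EuclideanSpace ℝ (Fin n)))))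
    {p w : E n} {r t : ℝ} (hr : 0 < r) (hw : ‖w‖ ≤ t) (ht : t ≤ r) {D : ℝ≥0∞}
    (h1 : ∫⁻ y in halfBall p ν (2 * r), ‖u y - a‖ₑ ≤ D)
    (h2 : ∫⁻ y in halfBall p (-ν) (2 * r), ‖u y - b‖ₑ ≤ D) :
    ∫⁻ y in halfBall p ν r, ‖u (y - w) - a‖ₑ ≤
      D + (D + ‖a - b‖ₑ * (ENNReal.ofReal t * W n (2 * r))) := by
  set S : Set (E n) := {y | y + w ∈ halfBall p ν r} with hS
  have e1 : ∫⁻ y in halfBall p ν r, ‖u (y - w) - a‖ₑ = ∫⁻ y in S, ‖u y - a‖ₑ := by
    have h := (measurePreserving_add_right (volume : Measure (E n)) (-w)).setLIntegral_comp_preimage_emb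
      (measurableEmbedding_addRight (-w)) (fun y => ‖u y - a‖ₑ) S
    rw [← h]
    have hpre : (fun y : E n => y + -w) ⁻¹' S = halfBall p ν r := by
      ext y
      simp only [hS, mem_preimage, mem_ofPred_eq, neg_add_cancel_right]
    rw [hpre]
    simp only [sub_eq_add_neg]
  rw [e1]
  set X := Xset ν P p t (2 * r) with hX
  have hXm : MeasurableSet X := Xset_meas p t (2 * r)
  have hsub : S ⊆ halfBall p ν (2 * r) ∪ ((halfBall p (-ν) (2 * r) ∩ X) ∪
      {y : E n | ⟪ν, y - p⟫_ℝ = 0}) := by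
    intro y hy
    have hy' : ‖y + w - p‖ < r ∧ 0 < ⟪ν, y + w - p⟫_ℝ := hy
    have en : ‖y - p‖ < 2 * r := by
      have e : y - p = (y + w - p) - w := by abel
      rw [e]
      have := norm_sub_le (y + w - p) w
      linarith [hy'.1]
    have ei : -t < ⟪ν, y - p⟫_ℝ := by
      have e : y + w - p = (y - p) + w := by abel
      have h3 := hy'.2
      rw [e, inner_add_right] at h3
      have h4 := real_inner_le_norm ν w
      rw [hν, one_mul] at h4
      linarith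
    rcases lt_trichotomy ⟪ν, y - p⟫_ℝ 0 with hlt | heq | hgt
    · right; left
      refine ⟨⟨en, ?_⟩, ei, hlt, ?_⟩
      · rw [inner_neg_left]; linarith
      · have h5 := hP1 (y - p)
        have h6 : ‖P (y - p)‖ ^ 2 < (2 * r) ^ 2 := by
          have h7 : ‖y - p‖ ^ 2 < (2 * r) ^ 2 := by
            have := norm_nonneg (y - p)
            nlinarith
          nlinarith [sq_nonneg ⟪ν, y - p⟫_ℝ]
        exact lt_of_pow_lt_pow_left₀ 2 (by positivity) h6
    · right; right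
      exact heq
    · left
      exact ⟨en, hgt⟩
  have hum : AEMeasurable (fun x => ‖u x - b‖ₑ) (volume.restrict (halfBall p (-ν) (2 * r) ∩ X)) :=
    ((hu.aestronglyMeasurable.sub aestronglyMeasurable_const).enorm).restrict
  calc ∫⁻ y in S, ‖u y - a‖ₑ
      ≤ ∫⁻ y in halfBall p ν (2 * r) ∪ ((halfBall p (-ν) (2 * r) ∩ X) ∪
          {y : E n | ⟪ν, y - p⟫_ℝ = 0}), ‖u y - a‖ₑ := lintegral_mono_set hsub
    _ ≤ (∫⁻ y in halfBall p ν (2 * r), ‖u y - a‖ₑ) +
          ((∫⁻ y in halfBall p (-ν) (2 * r) ∩ X, ‖u y - a‖ₑ) +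
            ∫⁻ y in {y : E n | ⟪ν, y - p⟫_ℝ = 0}, ‖u y - a‖ₑ) :=
        (lintegral_union_le _ _ _).trans (add_le_add le_rfl (lintegral_union_le _ _ _))
    _ = (∫⁻ y in halfBall p ν (2 * r), ‖u y - a‖ₑ) +
          (∫⁻ y in halfBall p (-ν) (2 * r) ∩ X, ‖u y - a‖ₑ) := by
        rw [setLIntegral_measure_zero _ _ (hyper_null hP2 p), add_zero]
    _ ≤ D + ∫⁻ y in halfBall p (-ν) (2 * r) ∩ X, (‖u y - b‖ₑ + ‖a - b‖ₑ) := by
        gcongr with y
        have e : u y - a = (u y - b) + (-(a - b)) := by abel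
        rw [e]
        refine (enorm_add_le _ _).trans ?_
        rw [enorm_neg]
    _ = D + ((∫⁻ y in halfBall p (-ν) (2 * r) ∩ X, ‖u y - b‖ₑ) +
          ∫⁻ _ in halfBall p (-ν) (2 * r) ∩ X, ‖a - b‖ₑ) := by
        rw [lintegral_add_left' hum]
    _ ≤ D + (D + ‖a - b‖ₑ * (ENNReal.ofReal t * W n (2 * r))) := by
        gcongr
        · exact (lintegral_mono_set inter_subset_left).trans h2
        · rw [setLIntegral_const]
          gcongr
          rw [← Xset_vol hP2 p t (2 * r)]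
          exact measure_mono inter_subset_right

/-- the tail condition on `η` and `u` -/
def TailOK (η : E n → ℝ) (u : E n → F d) : Prop :=
  ∀ (a : F d) (τ : ℝ), 0 < τ → ∃ R : ℝ, 0 < R ∧ ∀ (ε : ℝ) (p : E n) (r : ℝ), 0 < ε → 0 < r →
    ∫⁻ z in {z : E n | R < ‖z‖}, ‖η z‖ₑ * (∫⁻ y in ball p r, ‖u (y - ε • z) - a‖ₑ) ≤
      ENNReal.ofReal (τ * r ^ (n + 1))

lemma tail_mono {η : E n → ℝ} {u : E n → F d} {a : F d} {τ R R' : ℝ} (hR : R ≤ R')
    (h : ∀ (ε : ℝ) (p : E n) (r : ℝ), 0 < ε → 0 < r →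
      ∫⁻ z in {z : E n | R < ‖z‖}, ‖η z‖ₑ * (∫⁻ y in ball p r, ‖u (y - ε • z) - a‖ₑ) ≤
        ENNReal.ofReal (τ * r ^ (n + 1))) :
    ∀ (ε : ℝ) (p : E n) (r : ℝ), 0 < ε → 0 < r →
      ∫⁻ z in {z : E n | R' < ‖z‖}, ‖η z‖ₑ * (∫⁻ y in ball p r, ‖u (y - ε • z) - a‖ₑ) ≤
        ENNReal.ofReal (τ * r ^ (n + 1)) :=
  fun ε p r hε hr => (lintegral_mono_set fun _ hz => hR.trans_lt hz).trans (h ε p r hε hr)

lemma moll_half {u : E n → F d} (hu : StronglyMeasurable u) {η : E n → ℝ} (hη : Measurable η)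
    (hηi : Integrable η volume) {a b : F d}
    {ν : E n} (hν : ‖ν‖ = 1) {P : E n →ₗ[ℝ] EuclideanSpace ℝ (Fin n)}
    (hP1 : ∀ x : E n, ‖x‖ ^ 2 = ⟪ν, x⟫_ℝ ^ 2 + ‖P x‖ ^ 2)
    (hP2 : MeasurePreserving (fun x : E n => (⟪ν, x⟫_ℝ, P x)) volume
      ((volume : Measure ℝ).prod (volume : Measure (EuclideanSpace ℝ (Fin n)))))
    {p : E n} {r R ε : ℝ} (hr : 0 < r) (hR : 0 < R) (hε : 0 < ε) (ht : ε * R ≤ r) {D T : ℝ≥0∞}
    (h1 : ∫⁻ y in halfBall p ν (2 * r), ‖u y - a‖ₑ ≤ D)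
    (h2 : ∫⁻ y in halfBall p (-ν) (2 * r), ‖u y - b‖ₑ ≤ D)
    (htail : ∫⁻ z in {z : E n | R < ‖z‖}, ‖η z‖ₑ * (∫⁻ y in ball p r, ‖u (y - ε • z) - a‖ₑ) ≤ T) :
    ∫⁻ y in halfBall p ν r, ‖moll η ε u y - (∫ z, η z) • a‖ₑ ≤
      (∫⁻ z, ‖η z‖ₑ) * (D + (D + ‖a - b‖ₑ * (ENNReal.ofReal (ε * R) * W n (2 * r)))) + T := by
  set D' := D + (D + ‖a - b‖ₑ * (ENNReal.ofReal (ε * R) * W n (2 * r))) with hD'
  refine (moll_int_le hu hη hηi ε a _).trans ?_
  have hms : MeasurableSet {z : E n | R < ‖z‖} := measurableSet_lt measurable_const measurable_norm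
  rw [← lintegral_add_compl _ hms, add_comm]
  refine add_le_add ?_ ?_
  · calc ∫⁻ z in {z : E n | R < ‖z‖}ᶜ, ‖η z‖ₑ * ∫⁻ y in halfBall p ν r, ‖u (y - ε • z) - a‖ₑ
        ≤ ∫⁻ z in {z : E n | R < ‖z‖}ᶜ, ‖η z‖ₑ * D' := by
          apply setLIntegral_mono' hms.compl
          intro z hz
          have hz' : ‖z‖ ≤ R := not_lt.1 hz
          gcongr
          apply shift_le hu hν hP1 hP2 hr (w := ε • z) (t := ε * R) _ ht h1 h2
          rw [norm_smul, Real.norm_of_nonneg hε.le]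
          gcongr
      _ ≤ ∫⁻ z, ‖η z‖ₑ * D' := setLIntegral_le_lintegral _ _
      _ = (∫⁻ z, ‖η z‖ₑ) * D' := lintegral_mul_const _ hη.enorm
  · refine le_trans ?_ htail
    gcongr with z
    intro y hy
    rw [mem_ball, dist_eq_norm]
    exact hy.1

end R257.BJ
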