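import Pool.Agent.KS6_63.GJ.M2
import Pool.Agent.KS6_63.GJ.L.Sum

/-!
Lower bound for the energy of mollifications on finitely many pieces.
-/

set_option autoImplicit false

open MeasureTheory Filter Set Metric Topology
open scoped ENNReal NNReal InnerProductSpace

namespace R257.BJ

variable {n d : ℕ}

/-- the constant relating the closeness of `u` and of its mollifications -/
noncomputable def AC (n : ℕ) (η : E n → ℝ) : ℝ :=
  ((∫⁻ z, ‖η z‖ₑ).toReal * 2 ^ (n + 2) + (∫⁻ z, ‖η z‖ₑ).toReal + 1) / |∫ z, η z|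

lemma AC_nonneg (η : E n → ℝ) : 0 ≤ AC n η := by unfold AC; positivity

lemma close_half {u : E n → F d} (hu : StronglyMeasurable u) {η : E n → ℝ} (hη : Measurable η)
    (hηi : Integrable η volume) (hc : (∫ z, η z) ≠ 0) {a b : F d}
    {ν : E n} (hν : ‖ν‖ = 1) {P : E n →ₗ[ℝ] EuclideanSpace ℝ (Fin n)}
    (hP1 : ∀ x : E n, ‖x‖ ^ 2 = ⟪ν, x⟫_ℝ ^ 2 + ‖P x‖ ^ 2)
    (hP2 : MeasurePreserving (fun x : E n => (⟪ν, x⟫_ℝ, P x)) volume
      ((volume : Measure ℝ).prod (volume : Measure (EuclideanSpace ℝ (Fin n)))))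
    {p : E n} {r R ε δ ρ M : ℝ} (hδ : 0 < δ) (hr : 0 < r) (hR : 0 < R) (hε : 0 < ε)
    (h2r : 2 * r ≤ ρ) (hM1 : 1 ≤ M) (hM : 2 ^ n * (W n 1).toReal ≤ M * δ) (ht : M * (ε * R) ≤ r)
    (hp : p ∈ Cset u a b ν ρ (δ * ‖a - b‖))
    (htail : ∫⁻ z in {z : E n | R < ‖z‖}, ‖η z‖ₑ * (∫⁻ y in ball p r, ‖u (y - ε • z) - a‖ₑ) ≤
      ENNReal.ofReal (δ * ‖a - b‖ * r ^ (n + 1))) :
    ∫⁻ y in halfBall p ν r, ‖moll η ε u y - (∫ z, η z) • a‖ₑ ≤
      ENNReal.ofReal (AC n η * δ * ‖(∫ z, η z) • a - (∫ z, η z) • b‖ * r ^ (n + 1)) := by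
  have hεR : 0 < ε * R := mul_pos hε hR
  have ht' : ε * R ≤ r := by nlinarith
  have hC := hp (2 * r) (by linarith) h2r
  have h := moll_half hu hη hηi hν hP1 hP2 hr hR hε ht' hC.1 hC.2 htail
  refine h.trans ?_
  set I := (∫⁻ z, ‖η z‖ₑ).toReal with hI
  have hIfin : ∫⁻ z, ‖η z‖ₑ ≠ ⊤ := hηi.2.ne
  have hI0 : 0 ≤ I := ENNReal.toReal_nonneg
  have hIe : ∫⁻ z, ‖η z‖ₑ = ENNReal.ofReal I := (ENNReal.ofReal_toReal hIfin).symm
  set w1 := (W n 1).toReal with hw1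
  have hw0 : 0 ≤ w1 := ENNReal.toReal_nonneg
  have hWe : W n 1 = ENNReal.ofReal w1 := (ENNReal.ofReal_toReal (W_top n 1)).symm
  set s := ‖a - b‖ with hs
  have hs0 : 0 ≤ s := norm_nonneg _
  have hcs : ‖(∫ z, η z) • a - (∫ z, η z) • b‖ = |∫ z, η z| * s := by
    rw [← smul_sub, norm_smul, Real.norm_eq_abs]
  have hcp : 0 < |∫ z, η z| := abs_pos.2 hc
  have hse : ‖a - b‖ₑ = ENNReal.ofReal s := (ofReal_norm _).symm
  rw [W_scale n (by positivity : (0 : ℝ) < 2 * r), hWe, hIe, hse, hcs]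
  rw [← ENNReal.ofReal_mul (by positivity), ← ENNReal.ofReal_mul (by positivity),
    ← ENNReal.ofReal_mul (by positivity), ← ENNReal.ofReal_add (by positivity) (by positivity),
    ← ENNReal.ofReal_add (by positivity) (by positivity), ← ENNReal.ofReal_mul (by positivity),
    ← ENNReal.ofReal_add (by positivity) (by positivity)]
  apply ENNReal.ofReal_le_ofReal
  have e1 : AC n η * δ * (|∫ z, η z| * s) * r ^ (n + 1) =
      (I * 2 ^ (n + 2) + I + 1) * (δ * s * r ^ (n + 1)) := by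
    have e0 : AC n η * |∫ z, η z| = I * 2 ^ (n + 2) + I + 1 := by
      rw [AC, ← hI, div_mul_cancel₀ _ hcp.ne']
    calc AC n η * δ * (|∫ z, η z| * s) * r ^ (n + 1)
        = (AC n η * |∫ z, η z|) * (δ * s * r ^ (n + 1)) := by ring
      _ = _ := by rw [e0]
  rw [e1]
  have e2 : (2 * r) ^ (n + 1) = 2 ^ (n + 1) * r ^ (n + 1) := by rw [mul_pow]
  have e3 : (2 * r) ^ n = 2 ^ n * r ^ n := by rw [mul_pow]
  have k1 : s * (ε * R * ((2 * r) ^ n * w1)) ≤ δ * s * r ^ (n + 1) := by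
    rw [e3]
    have k2 : ε * R * (2 ^ n * w1) ≤ δ * r := by
      calc ε * R * (2 ^ n * w1) ≤ ε * R * (M * δ) := by gcongr
        _ = (M * (ε * R)) * δ := by ring
        _ ≤ r * δ := by gcongr
        _ = δ * r := by ring
    calc s * (ε * R * (2 ^ n * r ^ n * w1)) = s * r ^ n * (ε * R * (2 ^ n * w1)) := by ring
      _ ≤ s * r ^ n * (δ * r) := by gcongr
      _ = δ * s * r ^ (n + 1) := by ring
  have k3 := mul_le_mul_of_nonneg_left k1 hI0
  rw [e2]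
  have e4 : I * (δ * s * (2 ^ (n + 1) * r ^ (n + 1)) + (δ * s * (2 ^ (n + 1) * r ^ (n + 1)) +
      s * (ε * R * ((2 * r) ^ n * w1)))) = I * 2 ^ (n + 2) * (δ * s * r ^ (n + 1)) +
      I * (s * (ε * R * ((2 * r) ^ n * w1))) := by ring
  rw [e4]
  linarith

/-- mollifications are close to `c a` and `c b` at scales much larger than `ε`. -/
lemma close_moll {u : E n → F d} (hu : StronglyMeasurable u) {η : E n → ℝ} (hη : Measurable η)
    (hηi : Integrable η volume) (hc : (∫ z, η z) ≠ 0) (q : Piece n d)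
    {p : E n} {r R ε δ ρ M : ℝ} (hδ : 0 < δ) (hr : 0 < r) (hR : 0 < R) (hε : 0 < ε)
    (h2r : 2 * r ≤ ρ) (hM1 : 1 ≤ M) (hM : 2 ^ n * (W n 1).toReal ≤ M * δ) (ht : M * (ε * R) ≤ r)
    (hp : p ∈ Cset u q.a q.b q.ν ρ (δ * ‖q.a - q.b‖))
    (htaila : ∫⁻ z in {z : E n | R < ‖z‖}, ‖η z‖ₑ * (∫⁻ y in ball p r, ‖u (y - ε • z) - q.a‖ₑ) ≤
      ENNReal.ofReal (δ * ‖q.a - q.b‖ * r ^ (n + 1)))
    (htailb : ∫⁻ z in {z : E n | R < ‖z‖}, ‖η z‖ₑ * (∫⁻ y in ball p r, ‖u (y - ε • z) - q.b‖ₑ) ≤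
      ENNReal.ofReal (δ * ‖q.a - q.b‖ * r ^ (n + 1))) :
    p ∈ Cs (moll η ε u) ((∫ z, η z) • q.a) ((∫ z, η z) • q.b) q.ν r
      (AC n η * δ * ‖(∫ z, η z) • q.a - (∫ z, η z) • q.b‖) := by
  refine ⟨close_half hu hη hηi hc q.hν q.hP1 q.hP2 hδ hr hR hε h2r hM1 hM ht hp htaila, ?_⟩
  have hP1' : ∀ x : E n, ‖x‖ ^ 2 = ⟪-q.ν, x⟫_ℝ ^ 2 + ‖q.P x‖ ^ 2 := by
    intro x; rw [inner_neg_left, neg_sq]; exact q.hP1 x
  have hP2' : MeasurePreserving (fun x : E n => (⟪-q.ν, x⟫_ℝ, q.P x)) volume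
    ((volume : Measure ℝ).prod (volume : Measure (EuclideanSpace ℝ (Fin n)))) := by
    have hneg : MeasurePreserving (Prod.map (fun t : ℝ => -t) (id : EuclideanSpace ℝ (Fin n) → _))
        ((volume : Measure ℝ).prod (volume : Measure (EuclideanSpace ℝ (Fin n))))
        ((volume : Measure ℝ).prod (volume : Measure (EuclideanSpace ℝ (Fin n)))) :=
      (Measure.measurePreserving_neg volume).prod (MeasurePreserving.id _)
    have := hneg.comp q.hP2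
    convert this using 1
    ext x : 1
    simp [inner_neg_left]
  have hν' : ‖-q.ν‖ = 1 := by rw [norm_neg]; exact q.hν
  have hp' : p ∈ Cset u q.b q.a (-q.ν) ρ (δ * ‖q.b - q.a‖) := by
    rw [Cset_swap, norm_sub_rev]; exact hp
  rw [norm_sub_rev q.a q.b] at htailb
  have := close_half hu hη hηi hc hν' hP1' hP2' hδ hr hR hε h2r hM1 hM ht hp' htailb
  rw [norm_sub_rev ((∫ z, η z) • q.b)] at this
  exact this

/-- sum over finitely many pieces of the local inequality -/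
lemma sum_ineq' {v : E n → F d} (hvm : StronglyMeasurable v) {q : ℝ} (hq : 1 ≤ q) {δ c : ℝ}
    (hδ : 0 ≤ δ) (hc : c ≠ 0)
    {ι : Type} (s : Finset ι) (p : ι → Piece n d) (K : ι → Set (E n))
    (hK : ∀ i ∈ s, IsCompact (K i)) (hne : ∀ i ∈ s, (p i).a ≠ (p i).b ∨ K i = ∅)
    {r0 : ℝ}
    (hdis : ∀ i ∈ s, ∀ j ∈ s, i ≠ j → Disjoint (thickening (2 * r0) (K i)) (thickening (2 * r0) (K j)))
    {h : E n} (hh : 0 < ‖h‖) (hr : ‖h‖ ≤ r0)
    (hKC : ∀ i ∈ s, K i ⊆ Cs v (c • (p i).a) (c • (p i).b) (p i).ν (3 * ‖h‖)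
      (δ * ‖c • (p i).a - c • (p i).b‖)) :
    ∑ i ∈ s, volume ((p i).P '' K i) * ‖c • (p i).a - c • (p i).b‖ₑ ^ q * ‖⟪(p i).ν, h⟫_ℝ‖ₑ ≤
      Phi q v h + (∑ i ∈ s, volume ((p i).P '' K i) * ‖c • (p i).a - c • (p i).b‖ₑ ^ q) *
        (Cq n q * ENNReal.ofReal δ * ‖h‖ₑ) := by
  have h1 : ∀ i ∈ s, volume ((p i).P '' K i) * ‖c • (p i).a - c • (p i).b‖ₑ ^ q *
        ‖⟪(p i).ν, h⟫_ℝ‖ₑ ≤
      (∫⁻ x in thickening (2 * ‖h‖) (K i), ‖v (x + h) - v x‖ₑ ^ q) +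
      volume ((p i).P '' K i) * ‖c • (p i).a - c • (p i).b‖ₑ ^ q *
        (Cq n q * ENNReal.ofReal δ * ‖h‖ₑ) := by
    intro i hi
    rcases hne i hi with hab | hemp
    · have hab' : c • (p i).a ≠ c • (p i).b := by
        intro he
        apply hab
        rw [← sub_eq_zero, ← smul_sub, smul_eq_zero] at he
        exact sub_eq_zero.1 (he.resolve_left hc)
      exact local_ineq' hvm hq hab' (p i).hν (p i).hP1 (p i).hP2 hδ (hK i hi) (hKC i hi) hh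
    · rw [hemp]; simp
  refine (Finset.sum_le_sum h1).trans ?_
  rw [Finset.sum_add_distrib, Finset.sum_mul]
  gcongr
  rw [← lintegral_biUnion_finset]
  · exact setLIntegral_le_lintegral _ _
  · intro i hi j hj hij
    exact (hdis i hi j hj hij).mono (thickening_mono (by linarith) _) (thickening_mono (by linarith) _)
  · intro i _; exact isOpen_thickening.measurableSet

/-- integrated over an annulus -/
lemma ann_ineq' (hS : StmS) {v : E n → F d} (hvm : StronglyMeasurable v) {q : ℝ} (hq : 1 ≤ q)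
    {δ c : ℝ} (hδ : 0 ≤ δ) (hc : c ≠ 0)
    {ι : Type} (s : Finset ι) (p : ι → Piece n d) (K : ι → Set (E n))
    (hK : ∀ i ∈ s, IsCompact (K i)) (hne : ∀ i ∈ s, (p i).a ≠ (p i).b ∨ K i = ∅)
    {r0 lo : ℝ}
    (hdis : ∀ i ∈ s, ∀ j ∈ s, i ≠ j → Disjoint (thickening (2 * r0) (K i)) (thickening (2 * r0) (K j)))
    (hlo : 0 < lo) (hlor : lo ≤ r0)
    (hKC : ∀ h : E n, lo ≤ ‖h‖ → ‖h‖ ≤ r0 → ∀ i ∈ s, K i ⊆ Cs v (c • (p i).a) (c • (p i).b)
      (p i).ν (3 * ‖h‖) (δ * ‖c • (p i).a - c • (p i).b‖)) :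
    (∑ i ∈ s, volume ((p i).P '' K i) * ‖c • (p i).a - c • (p i).b‖ₑ ^ q) * kappa n *
        ENNReal.ofReal (Real.log (r0 / lo)) ≤
      gag q v +
      (∑ i ∈ s, volume ((p i).P '' K i) * ‖c • (p i).a - c • (p i).b‖ₑ ^ q) *
        (Cq n q * ENNReal.ofReal δ * (sigma n * ENNReal.ofReal (Real.log (r0 / lo)))) := by
  obtain ⟨hS1, hS2, -, -⟩ := hS n lo r0 hlo hlor
  set S := ∑ i ∈ s, volume ((p i).P '' K i) * ‖c • (p i).a - c • (p i).b‖ₑ ^ q with hSdef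
  have hannm : MeasurableSet (ann n lo r0) :=
    (measurableSet_le measurable_const measurable_norm).inter
      (measurableSet_le measurable_norm measurable_const)
  have hm1 : ∀ i, Measurable (fun h : E n => ‖⟪(p i).ν, h⟫_ℝ‖ₑ / ‖h‖ₑ ^ (n + 2)) := by
    intro i
    have : Measurable (fun h : E n => ⟪(p i).ν, h⟫_ℝ) := by fun_prop
    exact this.enorm.div (measurable_enorm.pow_const _)
  have hm2 : Measurable (fun h : E n => S * (Cq n q * ENNReal.ofReal δ) * (‖h‖ₑ / ‖h‖ₑ ^ (n + 2))) :=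
    (measurable_enorm.div (measurable_enorm.pow_const _)).const_mul _
  have hpt : ∀ h ∈ ann n lo r0,
      ∑ i ∈ s, volume ((p i).P '' K i) * ‖c • (p i).a - c • (p i).b‖ₑ ^ q *
        (‖⟪(p i).ν, h⟫_ℝ‖ₑ / ‖h‖ₑ ^ (n + 2)) ≤
      Phi q v h / ‖h‖ₑ ^ (n + 2) + S * (Cq n q * ENNReal.ofReal δ) * (‖h‖ₑ / ‖h‖ₑ ^ (n + 2)) := by
    intro h hh
    have hhp : 0 < ‖h‖ := lt_of_lt_of_le hlo hh.1
    have key := sum_ineq' hvm hq hδ hc s p K hK hne hdis hhp hh.2 (hKC h hh.1 hh.2)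
    have e1 : ∑ i ∈ s, volume ((p i).P '' K i) * ‖c • (p i).a - c • (p i).b‖ₑ ^ q *
        (‖⟪(p i).ν, h⟫_ℝ‖ₑ / ‖h‖ₑ ^ (n + 2)) =
        (∑ i ∈ s, volume ((p i).P '' K i) * ‖c • (p i).a - c • (p i).b‖ₑ ^ q *
          ‖⟪(p i).ν, h⟫_ℝ‖ₑ) / ‖h‖ₑ ^ (n + 2) := by
      simp only [ENNReal.div_eq_inv_mul, Finset.mul_sum]
      apply Finset.sum_congr rfl
      intro i _; ring
    rw [e1]
    refine (ENNReal.div_le_div_right key _).trans ?_
    rw [ENNReal.add_div]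
    gcongr
    simp only [ENNReal.div_eq_inv_mul]
    apply le_of_eq; ring
  have hm3 : Measurable (fun h : E n => ‖h‖ₑ / ‖h‖ₑ ^ (n + 2)) :=
    measurable_enorm.div (measurable_enorm.pow_const _)
  have hint := setLIntegral_mono' (μ := volume) hannm hpt
  rw [lintegral_add_right _ hm2, lintegral_const_mul _ hm3, hS2] at hint
  have hL : ∫⁻ h in ann n lo r0, ∑ i ∈ s, volume ((p i).P '' K i) *
        ‖c • (p i).a - c • (p i).b‖ₑ ^ q *
        (‖⟪(p i).ν, h⟫_ℝ‖ₑ / ‖h‖ₑ ^ (n + 2)) = S * (kappa n * ENNReal.ofReal (Real.log (r0 / lo))) := by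
    rw [lintegral_finsetSum s (fun i _ => (hm1 i).const_mul _), hSdef, Finset.sum_mul]
    apply Finset.sum_congr rfl
    intro i _
    rw [lintegral_const_mul _ (hm1 i), hS1 _ (p i).hν]
  rw [hL] at hint
  calc S * kappa n * ENNReal.ofReal (Real.log (r0 / lo))
      = S * (kappa n * ENNReal.ofReal (Real.log (r0 / lo))) := by ring
    _ ≤ _ := hint
    _ ≤ gag q v +
        S * (Cq n q * ENNReal.ofReal δ) * (sigma n * ENNReal.ofReal (Real.log (r0 / lo))) := by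
        gcongr
        rw [B_gag q v hvm]
        exact setLIntegral_le_lintegral _ _
    _ = _ := by ring

/-- finite families, after the logarithmic average -/
lemma fin_ineq' (hS : StmS) {u : E n → F d} (hum : StronglyMeasurable u) {η : E n → ℝ}
    (hη : Measurable η) (hηi : Integrable η volume) (hc : (∫ z, η z) ≠ 0) (htl : TailOK η u)
    {q : ℝ} (hq : 1 ≤ q) {δ : ℝ} (hδ : 0 < δ)
    {ι : Type} (s : Finset ι) (p : ι → Piece n d) (K : ι → Set (E n)) (ρ : ι → ℝ)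
    (hρ : ∀ i ∈ s, 0 < ρ i)
    (hK : ∀ i ∈ s, IsCompact (K i)) (hne : ∀ i ∈ s, (p i).a ≠ (p i).b ∨ K i = ∅)
    (hKC : ∀ i ∈ s, K i ⊆ Cset u (p i).a (p i).b (p i).ν (ρ i) (δ * ‖(p i).a - (p i).b‖))
    (hd : ∀ i ∈ s, ∀ j ∈ s, i ≠ j → Disjoint (K i) (K j)) :
    (∑ i ∈ s, volume ((p i).P '' K i) * ‖(∫ z, η z) • (p i).a - (∫ z, η z) • (p i).b‖ₑ ^ q) *
        kappa n ≤
      liminf (fun ε : ℝ => gag q (moll η ε u) / ENNReal.ofReal |Real.log ε|) (𝓝[>] 0) +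
      (∑ i ∈ s, volume ((p i).P '' K i) * ‖(∫ z, η z) • (p i).a - (∫ z, η z) • (p i).b‖ₑ ^ q) *
        (Cq n q * ENNReal.ofReal (AC n η * δ) * sigma n) := by
  set c := ∫ z, η z with hcdef
  obtain ⟨r0, hr0, hr01, hr3, hdis⟩ := exists_r0 s K hK hd (fun i => ρ i / 2)
    (fun i hi => half_pos (hρ i hi))
  set S := ∑ i ∈ s, volume ((p i).P '' K i) * ‖c • (p i).a - c • (p i).b‖ₑ ^ q with hSdef
  obtain ⟨-, -, hσ, hκ⟩ := hS n 1 1 one_pos le_rfl
  have hSt : S ≠ ⊤ := by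
    rw [hSdef]
    apply (ENNReal.sum_lt_top.mpr _).ne
    intro i hi
    apply ENNReal.mul_lt_top
    · exact ((hK i hi).image (p i).P.continuous_of_finiteDimensional).measure_lt_top
    · exact ENNReal.rpow_lt_top_of_nonneg (by linarith) enorm_ne_top
  set B := S * (Cq n q * ENNReal.ofReal (AC n η * δ) * sigma n) with hB
  have hBt : B ≠ ⊤ := ENNReal.mul_ne_top hSt
    (ENNReal.mul_ne_top (ENNReal.mul_ne_top (Cq_top n q) ENNReal.ofReal_ne_top) hσ)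
  -- choice of the constants
  obtain ⟨M, hM1, hM⟩ : ∃ M : ℝ, 1 ≤ M ∧ 2 ^ n * (W n 1).toReal ≤ M * δ := by
    refine ⟨max 1 (2 ^ n * (W n 1).toReal / δ), le_max_left _ _, ?_⟩
    rw [← div_le_iff₀ hδ]
    exact le_max_right _ _
  have hex : ∀ i ∈ s, ∃ R : ℝ, 0 < R ∧ ((p i).a ≠ (p i).b →
      (∀ (ε : ℝ) (x : E n) (r : ℝ), 0 < ε → 0 < r →
        ∫⁻ z in {z : E n | R < ‖z‖}, ‖η z‖ₑ * (∫⁻ y in ball x r, ‖u (y - ε • z) - (p i).a‖ₑ) ≤
          ENNReal.ofReal (δ * ‖(p i).a - (p i).b‖ * r ^ (n + 1))) ∧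
      (∀ (ε : ℝ) (x : E n) (r : ℝ), 0 < ε → 0 < r →
        ∫⁻ z in {z : E n | R < ‖z‖}, ‖η z‖ₑ * (∫⁻ y in ball x r, ‖u (y - ε • z) - (p i).b‖ₑ) ≤
          ENNReal.ofReal (δ * ‖(p i).a - (p i).b‖ * r ^ (n + 1)))) := by
    intro i _
    by_cases hab : (p i).a = (p i).b
    · exact ⟨1, one_pos, fun h => absurd hab h⟩
    · have hs : 0 < ‖(p i).a - (p i).b‖ := norm_pos_iff.mpr (sub_ne_zero.mpr hab)
      obtain ⟨R1, hR1, h1⟩ := htl (p i).a (δ * ‖(p i).a - (p i).b‖) (by positivity)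
      obtain ⟨R2, hR2, h2⟩ := htl (p i).b (δ * ‖(p i).a - (p i).b‖) (by positivity)
      exact ⟨max R1 R2, lt_max_of_lt_left hR1, fun _ =>
        ⟨tail_mono (le_max_left _ _) h1, tail_mono (le_max_right _ _) h2⟩⟩
  obtain ⟨R, hR, hRt⟩ : ∃ R : ℝ, 1 ≤ R ∧ ∀ i ∈ s, (p i).a ≠ (p i).b →
      (∀ (ε : ℝ) (x : E n) (r : ℝ), 0 < ε → 0 < r →
        ∫⁻ z in {z : E n | R < ‖z‖}, ‖η z‖ₑ * (∫⁻ y in ball x r, ‖u (y - ε • z) - (p i).a‖ₑ) ≤
          ENNReal.ofReal (δ * ‖(p i).a - (p i).b‖ * r ^ (n + 1))) ∧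
      (∀ (ε : ℝ) (x : E n) (r : ℝ), 0 < ε → 0 < r →
        ∫⁻ z in {z : E n | R < ‖z‖}, ‖η z‖ₑ * (∫⁻ y in ball x r, ‖u (y - ε • z) - (p i).b‖ₑ) ≤
          ENNReal.ofReal (δ * ‖(p i).a - (p i).b‖ * r ^ (n + 1))) := by
    choose! Rf hRf0 hRf using hex
    refine ⟨1 + ∑ i ∈ s, Rf i, ?_, fun i hi hab => ?_⟩
    · have := Finset.sum_nonneg (fun i hi => (hRf0 i hi).le)
      linarith
    · have hle : Rf i ≤ 1 + ∑ i ∈ s, Rf i := by
        have := Finset.single_le_sum (f := Rf) (fun j hj => (hRf0 j hj).le) hi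
        linarith
      obtain ⟨h1, h2⟩ := hRf i hi hab
      exact ⟨tail_mono hle h1, tail_mono hle h2⟩
  have hR0 : 0 < R := by linarith
  have hMR : 1 ≤ M * R := by nlinarith
  have hMR0 : 0 < M * R := by linarith
  set r1 := r0 / (M * R) with hr1
  have hr1p : 0 < r1 := div_pos hr0 hMR0
  have hr11 : r1 ≤ 1 := by
    rw [hr1, div_le_one hMR0]; linarith
  rw [← tsub_le_iff_right]
  have hlim : Tendsto (fun ε : ℝ => S * kappa n * (ENNReal.ofReal (Real.log (r1 / ε)) /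
      ENNReal.ofReal |Real.log ε|) - B) (𝓝[>] 0) (𝓝 (S * kappa n - B)) := by
    have h1 : Tendsto (fun ε : ℝ => S * kappa n * (ENNReal.ofReal (Real.log (r1 / ε)) /
      ENNReal.ofReal |Real.log ε|)) (𝓝[>] 0) (𝓝 (S * kappa n * 1)) :=
      ENNReal.Tendsto.const_mul (tendsto_log_ratio hr1p) (Or.inl one_ne_zero)
    rw [mul_one] at h1
    exact ENNReal.Tendsto.sub h1 tendsto_const_nhds (Or.inr hBt)
  rw [← hlim.liminf_eq]
  refine liminf_le_liminf ?_ (by isBoundedDefault) (by isBoundedDefault)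
  have h3 : Ioo (0 : ℝ) r1 ∈ 𝓝[>] (0 : ℝ) := Ioo_mem_nhdsGT hr1p
  filter_upwards [h3] with ε hε
  have hε1 : ε < 1 := by linarith [hε.2]
  have hl : Real.log ε < 0 := Real.log_neg hε.1 hε1
  have ha : 0 < |Real.log ε| := abs_pos.mpr hl.ne
  rw [tsub_le_iff_right]
  set lo := M * R * ε with hlo
  have hlo0 : 0 < lo := mul_pos hMR0 hε.1
  have hlor : lo ≤ r0 := by
    have := hε.2.le
    rw [hr1, le_div_iff₀ hMR0] at this
    rw [hlo]; linarith
  have hratio : r0 / lo = r1 / ε := by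
    rw [hr1, hlo]
    field_simp
  have key := ann_ineq' hS (B_moll_meas u hum η hη ε) hq (mul_nonneg (AC_nonneg η) hδ.le) hc s p K
    hK hne hdis hlo0 hlor (by
      intro h hh1 hh2 i hi
      have hhp : 0 < ‖h‖ := lt_of_lt_of_le hlo0 hh1
      rcases hne i hi with hab | hemp
      · intro x hx
        obtain ⟨t1, t2⟩ := hRt i hi hab
        have hr3i : 3 * r0 ≤ ρ i / 2 := hr3 i hi
        exact close_moll hum hη hηi hc (p i) hδ (r := 3 * ‖h‖) (by positivity) hR0 hε.1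
          (ρ := ρ i) (by linarith) hM1 hM (by rw [hlo] at hh1; nlinarith) (hKC i hi hx)
          (t1 ε x _ hε.1 (by positivity)) (t2 ε x _ hε.1 (by positivity))
      · rw [hemp]; exact empty_subset _)
  rw [hratio] at key
  have key2 := ENNReal.div_le_div_right key (ENNReal.ofReal |Real.log ε|)
  rw [ENNReal.add_div] at key2
  calc S * kappa n * (ENNReal.ofReal (Real.log (r1 / ε)) / ENNReal.ofReal |Real.log ε|)
      = S * kappa n * ENNReal.ofReal (Real.log (r1 / ε)) / ENNReal.ofReal |Real.log ε| := by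
        rw [mul_div_assoc]
    _ ≤ _ := key2
    _ ≤ _ := by
        gcongr
        have e : S * (Cq n q * ENNReal.ofReal (AC n η * δ) *
            (sigma n * ENNReal.ofReal (Real.log (r1 / ε)))) =
          B * ENNReal.ofReal (Real.log (r1 / ε)) := by rw [hB]; ring
        rw [e, mul_div_assoc]
        apply mul_le_of_le_one_right'
        apply ENNReal.div_le_of_le_mul
        rw [one_mul]
        apply ENNReal.ofReal_le_ofReal
        rw [Real.log_div hr1p.ne' hε.1.ne', abs_of_neg hl]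
        have := Real.log_nonpos hr1p.le hr11
        linarith

end R257.BJ
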