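import Pool.Agent.KS6_63.GJ.M3
import Pool.Agent.KS6_63.GJ.L.Jump

/-!
The covering argument of the library module `Jump` with an abstract lower bound for finite families,
and its application to mollifications.
-/

set_option autoImplicit false

open MeasureTheory Filter Set Metric Topology TopologicalSpace
open scoped ENNReal NNReal InnerProductSpace

namespace R257.BJ

variable {n d : ℕ}

/-- one choice of parameters -/
lemma param_ineq' (hT : StmT) (hH : StmH) (hM : StmM) (hJ : StmJ) (hS : StmS)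
    {u : E n → F d} (hum : StronglyMeasurable u) {q : ℝ} (hq : 1 ≤ q)
    {T : ℝ≥0∞} {A : ℝ}
    (hfin : ∀ δ : ℝ, 0 < δ → ∀ (s : Finset Idx) (K : Idx → Set (E n)),
      (∀ i ∈ s, IsCompact (K i)) →
      (∀ i ∈ s, (pc hT n d i).a ≠ (pc hT n d i).b ∨ K i = ∅) →
      (∀ i ∈ s, K i ⊆ Cset u (pc hT n d i).a (pc hT n d i).b (pc hT n d i).ν (rho i)
        (δ * ‖(pc hT n d i).a - (pc hT n d i).b‖)) →
      (∀ i ∈ s, ∀ j ∈ s, i ≠ j → Disjoint (K i) (K j)) →
      (∑ i ∈ s, volume ((pc hT n d i).P '' K i) * ‖(pc hT n d i).a - (pc hT n d i).b‖ₑ ^ q) *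
        kappa n ≤ T + (∑ i ∈ s, volume ((pc hT n d i).P '' K i) *
          ‖(pc hT n d i).a - (pc hT n d i).b‖ₑ ^ q) * (Cq n q * ENNReal.ofReal (A * δ) * sigma n))
    {δ L θ : ℝ}
    (hδ : 0 < δ) (hL : 0 < L) (hL1 : L < 1) (hs : Small n δ L) (hθ : 0 < θ) (hθ1 : θ < 1)
    (hδθ : Cq n q * ENNReal.ofReal (A * δ) * sigma n ≤ ENNReal.ofReal θ * kappa n) :
    ∫⁻ x, kappa n * jumpSize u x ^ q ∂(Hn n) ≤ cL n L * (T / ENNReal.ofReal (1 - θ)) := by
  obtain ⟨-, -, -, hκ⟩ := hS n 1 1 one_pos le_rfl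
  have hq0 : 0 ≤ q := by linarith
  have hua := hum.aestronglyMeasurable (μ := volume)
  refine (lintegral_mono fun x => jump_le_sup hJ hT hq hδ hκ x).trans ?_
  apply hM n Idx inferInstance (DD hT u δ) (fun i => kappa n * ‖(pc hT n d i).a - (pc hT n d i).b‖ₑ ^ q)
    _ (Hn n) (fun i => DD_compact hT hua δ i)
    (fun i => DD_finite hH hT hua hδ.le hL hL1 hs i)
    (fun i => ENNReal.mul_ne_top hκ (ENNReal.rpow_ne_top_of_nonneg hq0 enorm_ne_top))
  intro s K hK hKD hdis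
  have hne : ∀ i ∈ s, (pc hT n d i).a ≠ (pc hT n d i).b ∨ K i = ∅ := by
    intro i hi
    by_cases h : (pc hT n d i).a = (pc hT n d i).b
    · right
      have := hKD i hi
      unfold DD at this
      rw [if_pos h] at this
      exact subset_empty_iff.mp this
    · left; exact h
  have hKC : ∀ i ∈ s, K i ⊆ Cset u (pc hT n d i).a (pc hT n d i).b (pc hT n d i).ν (rho i)
      (δ * ‖(pc hT n d i).a - (pc hT n d i).b‖) := by
    intro i hi
    rcases hne i hi with h | h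
    · have := hKD i hi
      unfold DD at this
      rw [if_neg h] at this
      exact fun x hx => (this hx).1
    · rw [h]; exact empty_subset _
  have key := hfin δ hδ s K hK hne hKC hdis
  set S := ∑ i ∈ s, volume ((pc hT n d i).P '' K i) * ‖(pc hT n d i).a - (pc hT n d i).b‖ₑ ^ q with hSd
  have hSt : S ≠ ⊤ := by
    rw [hSd]
    apply (ENNReal.sum_lt_top.mpr _).ne
    intro i hi
    apply ENNReal.mul_lt_top
    · exact ((hK i hi).image (pc hT n d i).P.continuous_of_finiteDimensional).measure_lt_top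
    · exact ENNReal.rpow_lt_top_of_nonneg (by linarith) enorm_ne_top
  have hSk : S * kappa n ≠ ⊤ := ENNReal.mul_ne_top hSt hκ
  have h1 : S * kappa n ≤ T / ENNReal.ofReal (1 - θ) := by
    rw [ENNReal.le_div_iff_mul_le (Or.inl (by simp [hθ1])) (Or.inl ENNReal.ofReal_ne_top)]
    have h2 : S * kappa n ≤ T + S * kappa n * ENNReal.ofReal θ := by
      refine key.trans (add_le_add le_rfl ?_)
      calc S * (Cq n q * ENNReal.ofReal (A * δ) * sigma n) ≤ S * (ENNReal.ofReal θ * kappa n) := by gcongr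
        _ = _ := by ring
    have h3 : S * kappa n * ENNReal.ofReal (1 - θ) + S * kappa n * ENNReal.ofReal θ = S * kappa n := by
      rw [← mul_add, ← ENNReal.ofReal_add (by linarith) hθ.le]
      simp
    have h4 : S * kappa n * ENNReal.ofReal θ ≠ ⊤ := ENNReal.mul_ne_top hSk ENNReal.ofReal_ne_top
    have h5 : S * kappa n * ENNReal.ofReal (1 - θ) + S * kappa n * ENNReal.ofReal θ
        ≤ T + S * kappa n * ENNReal.ofReal θ := by rw [h3]; exact h2
    exact (ENNReal.add_le_add_iff_right h4).mp h5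
  calc ∑ i ∈ s, kappa n * ‖(pc hT n d i).a - (pc hT n d i).b‖ₑ ^ q * Hn n (K i)
      ≤ ∑ i ∈ s, kappa n * ‖(pc hT n d i).a - (pc hT n d i).b‖ₑ ^ q *
          (cL n L * volume ((pc hT n d i).P '' K i)) := by
        apply Finset.sum_le_sum
        intro i hi
        gcongr
        exact Hn_mono_le hH hT hua hδ.le hL hL1 hs i (hKD i hi)
    _ = cL n L * (S * kappa n) := by
        rw [hSd, Finset.sum_mul, Finset.mul_sum]
        apply Finset.sum_congr rfl
        intro i _; ring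
    _ ≤ _ := by gcongr

/-- the lower bound for the logarithmic average of `Phi` -/
theorem jump_le' (hT : StmT) (hH : StmH) (hM : StmM) (hJ : StmJ) (hS : StmS)
    {u : E n → F d} (hum : StronglyMeasurable u) {q : ℝ} (hq : 1 ≤ q)
    {T : ℝ≥0∞} {A : ℝ}
    (hfin : ∀ δ : ℝ, 0 < δ → ∀ (s : Finset Idx) (K : Idx → Set (E n)),
      (∀ i ∈ s, IsCompact (K i)) →
      (∀ i ∈ s, (pc hT n d i).a ≠ (pc hT n d i).b ∨ K i = ∅) →
      (∀ i ∈ s, K i ⊆ Cset u (pc hT n d i).a (pc hT n d i).b (pc hT n d i).ν (rho i)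
        (δ * ‖(pc hT n d i).a - (pc hT n d i).b‖)) →
      (∀ i ∈ s, ∀ j ∈ s, i ≠ j → Disjoint (K i) (K j)) →
      (∑ i ∈ s, volume ((pc hT n d i).P '' K i) * ‖(pc hT n d i).a - (pc hT n d i).b‖ₑ ^ q) *
        kappa n ≤ T + (∑ i ∈ s, volume ((pc hT n d i).P '' K i) *
          ‖(pc hT n d i).a - (pc hT n d i).b‖ₑ ^ q) * (Cq n q * ENNReal.ofReal (A * δ) * sigma n)) :
    kappa n * ∫⁻ x, jumpSize u x ^ q ∂(Hn n) ≤ T := by
  obtain ⟨-, -, hσ, hκ⟩ := hS n 1 1 one_pos le_rfl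
  rcases eq_or_ne (kappa n) 0 with hκ0 | hκ0
  · rw [hκ0, zero_mul]; exact bot_le
  rw [← lintegral_const_mul' _ _ hκ]
  have key : ∀ θ ∈ Ioo (0 : ℝ) 1, ∫⁻ x, kappa n * jumpSize u x ^ q ∂(Hn n) ≤
      cL n θ * (T / ENNReal.ofReal (1 - θ)) := by
    rintro θ ⟨hθ, hθ1⟩
    have h1 : Tendsto (fun δ : ℝ => ENNReal.ofReal (2 * 4 ^ (n + 1) * δ)) (𝓝[>] 0) (𝓝 0) := by
      have : Tendsto (fun δ : ℝ => ENNReal.ofReal (2 * 4 ^ (n + 1) * δ)) (𝓝 0)
          (𝓝 (ENNReal.ofReal (2 * 4 ^ (n + 1) * 0))) :=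
        (ENNReal.continuous_ofReal.comp (continuous_const.mul continuous_id)).tendsto 0
      rw [mul_zero, ENNReal.ofReal_zero] at this
      exact this.mono_left nhdsWithin_le_nhds
    have h2 : Tendsto (fun δ : ℝ => Cq n q * ENNReal.ofReal (A * δ) * sigma n) (𝓝[>] 0) (𝓝 0) := by
      have h : Tendsto (fun δ : ℝ => ENNReal.ofReal (A * δ)) (𝓝 0) (𝓝 (ENNReal.ofReal 0)) := by
        have h0 : Continuous fun δ : ℝ => ENNReal.ofReal (A * δ) :=
          ENNReal.continuous_ofReal.comp (continuous_const.mul continuous_id)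
        have := h0.tendsto 0
        rwa [mul_zero] at this
      have h' := ENNReal.Tendsto.mul_const (ENNReal.Tendsto.const_mul h (Or.inr (Cq_top n q)))
        (Or.inr hσ : Cq n q * ENNReal.ofReal 0 ≠ 0 ∨ sigma n ≠ ⊤)
      rw [ENNReal.ofReal_zero, mul_zero, zero_mul] at h'
      exact h'.mono_left nhdsWithin_le_nhds
    have p1 : 0 < ENNReal.ofReal (θ ^ (n + 1)) * VN n :=
      ENNReal.mul_pos (by simp only [ne_eq, ENNReal.ofReal_eq_zero, not_le]; positivity) (VN_pos n)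
    have p2 : 0 < ENNReal.ofReal θ * kappa n :=
      ENNReal.mul_pos (by simp only [ne_eq, ENNReal.ofReal_eq_zero, not_le]; positivity) hκ0
    obtain ⟨δ, hδ⟩ := ((h1.eventually_lt_const p1).and
      ((h2.eventually_lt_const p2).and self_mem_nhdsWithin)).exists
    exact param_ineq' hT hH hM hJ hS hum hq hfin hδ.2.2 hθ hθ1 hδ.1 hθ hθ1 hδ.2.1.le
  have hlim : Tendsto (fun θ : ℝ => cL n θ * (T / ENNReal.ofReal (1 - θ))) (𝓝[>] 0)
      (𝓝 (1 * (T / 1))) := by
    apply ENNReal.Tendsto.mul (tendsto_cL n) (Or.inl one_ne_zero) _ (Or.inr ENNReal.one_ne_top)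
    apply ENNReal.Tendsto.const_div _ (Or.inl ENNReal.one_ne_top)
    have : Tendsto (fun θ : ℝ => ENNReal.ofReal (1 - θ)) (𝓝 0) (𝓝 (ENNReal.ofReal (1 - 0))) :=
      (ENNReal.continuous_ofReal.comp (continuous_const.sub continuous_id)).tendsto 0
    rw [sub_zero, ENNReal.ofReal_one] at this
    exact this.mono_left nhdsWithin_le_nhds
  rw [one_mul, div_one] at hlim
  apply ge_of_tendsto hlim
  filter_upwards [Ioo_mem_nhdsGT (one_pos : (0 : ℝ) < 1)] with θ hθ
  exact key θ hθ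



/-- the lower bound for the energies of the mollifications -/
theorem moll_jump_le (hT : StmT) (hH : StmH) (hM : StmM) (hJ : StmJ) (hS : StmS)
    {u : E n → F d} (hum : StronglyMeasurable u) {η : E n → ℝ}
    (hη : Measurable η) (hηi : Integrable η volume) (htl : TailOK η u)
    {q : ℝ} (hq : 1 ≤ q) :
    ‖∫ z, η z‖ₑ ^ q * (kappa n * ∫⁻ x, jumpSize u x ^ q ∂(Hn n)) ≤
      liminf (fun ε : ℝ => gag q (moll η ε u) / ENNReal.ofReal |Real.log ε|) (𝓝[>] 0) := by
  have hq0 : 0 < q := by linarith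
  by_cases hc : (∫ z, η z) = 0
  · rw [hc, enorm_zero, ENNReal.zero_rpow_of_pos hq0, zero_mul]
    exact bot_le
  set c := ∫ z, η z with hcd
  set G := liminf (fun ε : ℝ => gag q (moll η ε u) / ENNReal.ofReal |Real.log ε|) (𝓝[>] 0) with hG
  have hc0 : ‖c‖ₑ ^ q ≠ 0 := by
    have : 0 < ‖c‖ₑ := by rw [enorm_pos]; exact hc
    exact (ENNReal.rpow_pos this enorm_ne_top).ne'
  have hct : ‖c‖ₑ ^ q ≠ ⊤ := ENNReal.rpow_ne_top_of_nonneg hq0.le enorm_ne_top
  have key := jump_le' hT hH hM hJ hS hum hq (T := G / ‖c‖ₑ ^ q) (A := AC n η) (by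
    intro δ hδ s K hK hne hKC hdis
    have h := fin_ineq' hS hum hη hηi hc htl hq hδ s (pc hT n d) K rho (fun i _ => rho_pos i)
      hK hne hKC hdis
    have e : ∑ i ∈ s, volume ((pc hT n d i).P '' K i) *
        ‖c • (pc hT n d i).a - c • (pc hT n d i).b‖ₑ ^ q =
        ‖c‖ₑ ^ q * ∑ i ∈ s, volume ((pc hT n d i).P '' K i) *
          ‖(pc hT n d i).a - (pc hT n d i).b‖ₑ ^ q := by
      rw [Finset.mul_sum]
      apply Finset.sum_congr rfl
      intro i _
      rw [← smul_sub, enorm_smul, ENNReal.mul_rpow_of_nonneg _ _ hq0.le]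
      ring
    rw [e] at h
    set S := ∑ i ∈ s, volume ((pc hT n d i).P '' K i) *
          ‖(pc hT n d i).a - (pc hT n d i).b‖ₑ ^ q with hSd
    have h2 : ‖c‖ₑ ^ q * (S * kappa n) ≤ ‖c‖ₑ ^ q * (G / ‖c‖ₑ ^ q +
        S * (Cq n q * ENNReal.ofReal (AC n η * δ) * sigma n)) := by
      calc ‖c‖ₑ ^ q * (S * kappa n) = ‖c‖ₑ ^ q * S * kappa n := by ring
        _ ≤ _ := h
        _ = _ := by
            rw [mul_add, ENNReal.mul_div_cancel hc0 hct]
            ring
    exact (ENNReal.mul_le_mul_iff_right hc0 hct).1 h2)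
  calc ‖c‖ₑ ^ q * (kappa n * ∫⁻ x, jumpSize u x ^ q ∂(Hn n)) ≤ ‖c‖ₑ ^ q * (G / ‖c‖ₑ ^ q) := by
        gcongr
    _ = G := ENNReal.mul_div_cancel hc0 hct

end R257.BJ
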