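import Pool.Agent.KS6_63.GJ.M4
import Pool.Agent.KS6_63.GJ.L.Res

/-!
The tail condition for compactly supported kernels and for bounded functions; general statement.
-/

set_option autoImplicit false

open MeasureTheory Filter Set Metric Topology
open scoped ENNReal NNReal InnerProductSpace

namespace R257.BJ

variable {n d : ℕ}

lemma tail_compact {η : E n → ℝ} (u : E n → F d)
    (h : ∃ R : ℝ, ∀ᵐ z : E n, R < ‖z‖ → η z = 0) : TailOK η u := by
  obtain ⟨R0, hR0⟩ := h
  intro a τ hτ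
  refine ⟨max R0 1, lt_max_of_lt_right one_pos, fun ε p r _ _ => ?_⟩
  have hms : MeasurableSet {z : E n | max R0 1 < ‖z‖} :=
    measurableSet_lt measurable_const measurable_norm
  have h0 : ∫⁻ z in {z : E n | max R0 1 < ‖z‖},
      ‖η z‖ₑ * (∫⁻ y in ball p r, ‖u (y - ε • z) - a‖ₑ) = ∫⁻ _ in {z : E n | max R0 1 < ‖z‖}, 0 := by
    apply lintegral_congr_ae
    rw [EventuallyEq, ae_restrict_iff' hms]
    filter_upwards [hR0] with z hz hz'
    rw [hz (lt_of_le_of_lt (le_max_left _ _) hz'), enorm_zero, zero_mul]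
  rw [h0, lintegral_zero]
  exact bot_le

lemma tail_lintegral {η : E n → ℝ} (hη : Measurable η) (hηi : Integrable η volume) :
    Tendsto (fun k : ℕ => ∫⁻ z in {z : E n | (k : ℝ) < ‖z‖}, ‖η z‖ₑ) atTop (𝓝 0) := by
  have hms : ∀ k : ℕ, MeasurableSet {z : E n | (k : ℝ) < ‖z‖} := fun k =>
    measurableSet_lt measurable_const measurable_norm
  have h : Tendsto (fun k : ℕ => ∫⁻ z, {z : E n | (k : ℝ) < ‖z‖}.indicator (fun z => ‖η z‖ₑ) z)
      atTop (𝓝 (∫⁻ _ : E n, 0)) := by
    apply tendsto_lintegral_of_dominated_convergence (fun z => ‖η z‖ₑ)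
    · intro k
      exact hη.enorm.indicator (hms k)
    · intro k
      exact Eventually.of_forall fun z => indicator_le_self _ _ z
    · exact hηi.2.ne
    · refine Eventually.of_forall fun z => ?_
      apply tendsto_const_nhds.congr'
      obtain ⟨N, hN⟩ := exists_nat_ge ‖z‖
      filter_upwards [eventually_ge_atTop N] with k hk
      rw [indicator_of_notMem]
      intro hz
      have hz' : (k : ℝ) < ‖z‖ := hz
      have : (N : ℝ) ≤ k := by exact_mod_cast hk
      linarith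
  rw [lintegral_zero] at h
  refine h.congr fun k => ?_
  rw [lintegral_indicator (hms k)]

lemma tail_bounded {η : E n → ℝ} (hη : Measurable η) (hηi : Integrable η volume) {u : E n → F d}
    (h : ∃ M : ℝ, ∀ᵐ x : E n, ‖u x‖ ≤ M) : TailOK η u := by
  obtain ⟨M, hM⟩ := h
  intro a τ hτ
  set C0 := ENNReal.ofReal (|M| + ‖a‖) * VN n with hC0
  have hC0t : C0 ≠ ⊤ := ENNReal.mul_ne_top ENNReal.ofReal_ne_top (VN_top n)
  have h1 := ENNReal.Tendsto.mul_const (tail_lintegral hη hηi) (Or.inr hC0t)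
  rw [zero_mul] at h1
  obtain ⟨k, hk⟩ := (h1.eventually_lt_const (ENNReal.ofReal_pos.2 hτ)).exists
  refine ⟨(k : ℝ) + 1, by positivity, fun ε p r hε hr => ?_⟩
  have hsub : {z : E n | (k : ℝ) + 1 < ‖z‖} ⊆ {z : E n | (k : ℝ) < ‖z‖} := by
    intro z hz
    have hz' : (k : ℝ) + 1 < ‖z‖ := hz
    show (k : ℝ) < ‖z‖
    linarith
  have hin : ∀ z : E n, ∫⁻ y in ball p r, ‖u (y - ε • z) - a‖ₑ ≤
      ENNReal.ofReal (r ^ (n + 1)) * C0 := by
    intro z
    have h2 : ∀ᵐ y : E n, ‖u (y - ε • z)‖ ≤ M :=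
      (measurePreserving_sub_right (volume : Measure (E n)) (ε • z)).quasiMeasurePreserving.ae hM
    calc ∫⁻ y in ball p r, ‖u (y - ε • z) - a‖ₑ
        ≤ ∫⁻ _ in ball p r, ENNReal.ofReal (|M| + ‖a‖) := by
          apply lintegral_mono_ae
          filter_upwards [ae_restrict_of_ae h2] with y hy
          rw [← ofReal_norm]
          apply ENNReal.ofReal_le_ofReal
          refine (norm_sub_le _ _).trans ?_
          have := le_abs_self M
          linarith
      _ = ENNReal.ofReal (r ^ (n + 1)) * C0 := by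
          rw [setLIntegral_const, vol_ball p hr.le, hC0]
          ring
  calc ∫⁻ z in {z : E n | (k : ℝ) + 1 < ‖z‖}, ‖η z‖ₑ * (∫⁻ y in ball p r, ‖u (y - ε • z) - a‖ₑ)
      ≤ ∫⁻ z in {z : E n | (k : ℝ) < ‖z‖}, ‖η z‖ₑ * (∫⁻ y in ball p r, ‖u (y - ε • z) - a‖ₑ) :=
        lintegral_mono_set hsub
    _ ≤ ∫⁻ z in {z : E n | (k : ℝ) < ‖z‖}, ‖η z‖ₑ * (ENNReal.ofReal (r ^ (n + 1)) * C0) := by
        gcongr with z
        exact hin z
    _ = ENNReal.ofReal (r ^ (n + 1)) * ((∫⁻ z in {z : E n | (k : ℝ) < ‖z‖}, ‖η z‖ₑ) * C0) := by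
        rw [lintegral_mul_const _ hη.enorm]
        ring
    _ ≤ ENNReal.ofReal (r ^ (n + 1)) * ENNReal.ofReal τ := by
        gcongr
    _ = ENNReal.ofReal (τ * r ^ (n + 1)) := by
        rw [mul_comm τ, ENNReal.ofReal_mul (by positivity)]

/-- Lower bound without a Besov assumption. -/
theorem general_case (n d : ℕ) (q : ℝ) (hq : 1 ≤ q) (u : E n → F d)
    (hu : AEStronglyMeasurable u volume) (η : E n → ℝ) (hη : Integrable η volume)
    (h : (∃ R : ℝ, ∀ᵐ z : E n, R < ‖z‖ → η z = 0) ∨ (∃ M : ℝ, ∀ᵐ x : E n, ‖u x‖ ≤ M)) :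
    ‖∫ z, η z‖ₑ ^ q * (kappa n * ∫⁻ x, jumpSize u x ^ q ∂(Hn n)) ≤
      liminf (fun ε : ℝ => gag q (moll η ε u) / ENNReal.ofReal |Real.log ε|) (𝓝[>] 0) := by
  set u' := hu.mk u with hu'
  have hu'm : StronglyMeasurable u' := hu.stronglyMeasurable_mk
  have huu : u =ᵐ[volume] u' := hu.ae_eq_mk
  set η' := hη.1.mk η with hη'
  have hη'm : Measurable η' := hη.1.stronglyMeasurable_mk.measurable
  have hηη : η =ᵐ[volume] η' := hη.1.ae_eq_mk
  have hmoll : ∀ ε : ℝ, 0 < ε → moll η ε u = moll η' ε u' := by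
    intro ε hε
    funext x
    unfold moll
    apply integral_congr_ae
    have h2 : ∀ᵐ z : E n, u (x - ε • z) = u' (x - ε • z) := by
      have h3 : ∀ᵐ y : E n, u (x - y) = u' (x - y) :=
        (Measure.measurePreserving_sub_left (volume : Measure (E n)) x).quasiMeasurePreserving.ae huu
      rw [ae_iff] at h3 ⊢
      have h4 : {z : E n | ¬ u (x - ε • z) = u' (x - ε • z)} =
          (fun z => ε • z) ⁻¹' {y | ¬ u (x - y) = u' (x - y)} := rfl
      rw [h4, Measure.addHaar_preimage_smul _ hε.ne', h3, mul_zero]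
    filter_upwards [hηη, h2] with z hz1 hz2
    rw [hz1, hz2]
  have hint : ∫ z, η z = ∫ z, η' z := integral_congr_ae hηη
  have htl : TailOK η' u' := by
    rcases h with ⟨R, hR⟩ | ⟨M, hM⟩
    · refine tail_compact u' ⟨R, ?_⟩
      filter_upwards [hR, hηη] with z h1 h2 h3
      rw [← h2]
      exact h1 h3
    · refine tail_bounded hη'm (hη.congr hηη) ⟨M, ?_⟩
      filter_upwards [hM, huu] with x h1 h2
      rw [← h2]
      exact h1
  have key := moll_jump_le stmT stmH stmM stmJ stmS hu'm hη'm (hη.congr hηη) htl hq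
  rw [← hint] at key
  simp only [← jumpSize_congr huu] at key
  refine key.trans (le_of_eq ?_)
  apply liminf_congr
  filter_upwards [self_mem_nhdsWithin] with ε hε
  rw [hmoll ε hε]

end R257.BJ
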